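import Mathlib
import Pool.Agent.Helper15.PotDense
import Pool.Agent.Helper92.HN.Full

/-!
# Complete intersections in products of `k` projective spaces of dimension `n`: natural coordinates

* `Mono n d`: the monomials of multidegree `d`.
* `coord K k n r`: the homogeneous coordinates `(1, x_1, .., x_n)` of the factor `r` in the chart.
* `form n d a`: the form of multidegree `d` with the coefficients `a`, in the chart.
* `Good K I d`: the conclusion of the theorem for the ideal `I` (`d` is the dimension).
-/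

namespace Pool.Agent.Helper92.CI

open MvPolynomial AlgebraicGeometry CategoryTheory Pool.Agent.Helper15

/-- The monomials of multidegree `d` in the homogeneous coordinates of the factors. -/
abbrev Mono {k : ℕ} (n : ℕ) (d : Fin k → ℕ) := ∀ r, Sym (Fin (n + 1)) (d r)

section defs

variable {K : Type*} [Field K] {k n : ℕ}

/-- The homogeneous coordinates `(1, x)` of the factor `r` in the affine chart. -/
noncomputable def coord (K : Type*) [Field K] (k n : ℕ) (r : Fin k) :
    Fin (n + 1) → MvPolynomial (Fin k × Fin n) K :=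
  Fin.cons 1 fun j => X (r, j)

/-- The value of a monomial. -/
noncomputable def mono (K : Type*) [Field K] {k n : ℕ} {d : Fin k → ℕ} (s : Mono n d) :
    MvPolynomial (Fin k × Fin n) K :=
  ∏ r, ((s r : Multiset (Fin (n + 1))).map (coord K k n r)).prod

/-- The form of multidegree `d` with the coefficients `a`, in the affine chart. -/
noncomputable def form (d : Fin k → ℕ) (a : Mono n d → K) : MvPolynomial (Fin k × Fin n) K :=
  ∑ s : Mono n d, C (a s) * ∏ r, ((s r : Multiset (Fin (n + 1))).map (coord K k n r)).prod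

/-- The ideal of the complete intersection. -/
noncomputable def ideal {l : ℕ} (d : Fin l → Fin k → ℕ) (a : (Σ i, Mono n (d i)) → K) :
    Ideal (MvPolynomial (Fin k × Fin n) K) :=
  Ideal.span (Set.range fun i => form (d i) fun s => a ⟨i, s⟩)

end defs

/-- The conclusion. -/
def Good (K : Type) [Field K] {k n : ℕ} (I : Ideal (MvPolynomial (Fin k × Fin n) K)) (e : ℕ) :
    Prop :=
  I.IsPrime ∧
  (∀ r : Fin k, ∀ Φ ∈ I, (∀ v ∈ Φ.vars, v.1 ≠ r) → Φ = 0) ∧
  Algebra.trdeg K (MvPolynomial (Fin k × Fin n) K ⧸ I) = (e : ℕ) ∧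
  ∀ (X : Scheme.{0}) (s : X ⟶ Spec (CommRingCat.of K)) [IrreducibleSpace X],
    BirationalOver K X (Spec (CommRingCat.of (MvPolynomial (Fin k × Fin n) K ⧸ I))) s
      (Spec.map (CommRingCat.ofHom (algebraMap K (MvPolynomial (Fin k × Fin n) K ⧸ I)))) →
    PotentiallyDense K X s

/-- Transfer of a statement for general coefficients along a linear change of coefficients. -/
theorem transfer {ι τ : Type} [Fintype ι] [DecidableEq τ] (σ : ι → τ)
    (hσ : Function.Surjective σ) (μ : ι → ℚ) (hμ : ∀ e, μ e ≠ 0)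
    (P : ∀ (K : Type) [Field K] [NumberField K], (τ → K) → Prop)
    (h : ∃ Δ : MvPolynomial ι ℚ, Δ ≠ 0 ∧ ∀ (K : Type) [Field K] [NumberField K] (c : ι → K),
      aeval c Δ ≠ 0 → P K fun s => ∑ e with σ e = s, algebraMap ℚ K (μ e) * c e) :
    ∃ Δ : MvPolynomial τ ℚ, Δ ≠ 0 ∧ ∀ (K : Type) [Field K] [NumberField K] (a : τ → K),
      aeval a Δ ≠ 0 → P K a := by
  classical
  obtain ⟨Δ, hΔ, H⟩ := h
  obtain ⟨c0, hc0⟩ := HN.exists_rat hΔ
  obtain ⟨ρ, hρ⟩ := hσ.hasRightInverse
  set a0 : τ → ℚ := fun s => ∑ e with σ e = s, μ e * c0 e with ha0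
  set f : ι → MvPolynomial τ ℚ := fun e =>
    C (c0 e) + if e = ρ (σ e) then C ((μ e)⁻¹) * (X (σ e) - C (a0 (σ e))) else 0 with hf
  have key : ∀ (K : Type) [Field K] [Algebra ℚ K] (a : τ → K),
      aeval a (bind₁ f Δ) = aeval (fun e => aeval a (f e)) Δ := by
    intro K _ _ a
    rw [aeval_bind₁]
  refine ⟨bind₁ f Δ, ?_, fun K _ _ a ha => ?_⟩
  · intro h0
    have h1 := key ℚ a0
    rw [h0, map_zero] at h1
    apply hc0
    rw [h1]
    congr 1
    congr 1
    funext e
    simp only [hf, map_add, aeval_C, Algebra.algebraMap_self, RingHom.id_apply]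
    split_ifs <;> simp
  · rw [key K a] at ha
    have h2 := H K _ ha
    convert h2 using 1
    funext s
    have h3 : ∀ e, aeval a (f e) = algebraMap ℚ K (c0 e) +
        if e = ρ (σ e) then algebraMap ℚ K ((μ e)⁻¹) * (a (σ e) - algebraMap ℚ K (a0 (σ e)))
          else 0 := by
      intro e
      simp only [hf, map_add, aeval_C]
      split_ifs <;> simp
    have h4 : ∀ e ∈ Finset.univ.filter (fun e => σ e = s),
        algebraMap ℚ K (μ e) * aeval a (f e) = algebraMap ℚ K (μ e * c0 e) +
          if e = ρ s then (a s - algebraMap ℚ K (a0 s)) else 0 := by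
      intro e he
      rw [Finset.mem_filter] at he
      rw [h3, he.2, mul_add, map_mul]
      congr 1
      split_ifs with h5
      · rw [← mul_assoc, ← map_mul, mul_inv_cancel₀ (hμ e), map_one, one_mul]
      · simp
    rw [Finset.sum_congr rfl h4, Finset.sum_add_distrib, ← map_sum]
    have h6 : (∑ e with σ e = s, μ e * c0 e) = a0 s := rfl
    rw [h6, Finset.sum_ite_eq']
    rw [if_pos (by simp [hρ s])]
    ring

/-- The form with the coefficients of `transfer`. -/
theorem form_sum {K : Type*} [Field K] {k n l : ℕ} {d : Fin l → Fin k → ℕ} {ι : Type*}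
    [Fintype ι] (σ : ι → Σ i, Mono n (d i)) (b : ι → K) (i : Fin l)
    [DecidableEq (Σ i, Mono n (d i))] :
    form (d i) (fun s => ∑ e with σ e = ⟨i, s⟩, b e) =
      ∑ e with (σ e).1 = i, C (b e) * mono K (σ e).2 := by
  classical
  unfold form
  have h1 : ∀ s : Mono n (d i), (C (∑ e with σ e = ⟨i, s⟩, b e) : MvPolynomial _ K) *
      ∏ r, ((s r : Multiset (Fin (n + 1))).map (coord K k n r)).prod =
      ∑ e, if σ e = ⟨i, s⟩ then C (b e) * mono K (σ e).2 else 0 := by
    intro s
    rw [map_sum, Finset.sum_mul, Finset.sum_filter]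
    refine Finset.sum_congr rfl fun e _ => ?_
    split_ifs with h
    · rw [h]; rfl
    · rfl
  rw [Finset.sum_congr rfl fun s _ => h1 s, Finset.sum_comm, Finset.sum_filter]
  refine Finset.sum_congr rfl fun e _ => ?_
  split_ifs with h
  · subst h
    rw [Finset.sum_eq_single (σ e).2]
    · rw [if_pos rfl]
    · intro s _ hs
      rw [if_neg]
      intro h2
      apply hs
      have := Sigma.mk.inj_iff.mp h2
      exact (eq_of_heq this.2).symm
    · intro h2
      exact absurd (Finset.mem_univ _) h2
  · apply Finset.sum_eq_zero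
    intro s _
    rw [if_neg]
    intro h2
    exact h (by rw [h2])

end Pool.Agent.Helper92.CI
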