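import Mathlib
import Pool.Agent.Helper92.CI.Defs

/-!
# Transport of the conclusion along an equivalence of the variables
-/

namespace Pool.Agent.Helper92.CI

open MvPolynomial AlgebraicGeometry CategoryTheory Pool.Agent.Helper15

universe u

theorem birationalOver_congr {K : Type u} [Field K] {A B : Type u} [CommRing A] [CommRing B]
    [Algebra K A] [Algebra K B] (q : A ≃ₐ[K] B) (X : Scheme.{u}) (s : X ⟶ Spec (CommRingCat.of K))
    (h : BirationalOver K X (Spec (CommRingCat.of B)) s
      (Spec.map (CommRingCat.ofHom (algebraMap K B)))) :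
    BirationalOver K X (Spec (CommRingCat.of A)) s
      (Spec.map (CommRingCat.ofHom (algebraMap K A))) := by
  obtain ⟨W, i, j, hi, hj, hW, hij⟩ := h
  have hiso : IsIso (CommRingCat.ofHom q.toRingEquiv.toRingHom) :=
    (q.toRingEquiv.toCommRingCatIso).isIso_hom
  refine ⟨W, i, j ≫ Spec.map (CommRingCat.ofHom q.toRingEquiv.toRingHom), hi, inferInstance, hW,
    ?_⟩
  rw [hij, Category.assoc, ← Spec.map_comp, ← CommRingCat.ofHom_comp]
  congr 3
  ext x
  simp

theorem good_of {K : Type} [Field K] {k n e : ℕ} {V : Type} (v : V ≃ Fin k × Fin n)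
    {J : Ideal (MvPolynomial V K)} {I : Ideal (MvPolynomial (Fin k × Fin n) K)}
    (hIJ : I = J.map (rename v : MvPolynomial V K →ₐ[K] MvPolynomial (Fin k × Fin n) K))
    (hJ : J.IsPrime)
    (hdom : ∀ r : Fin k, ∀ Φ ∈ J, (∀ w ∈ Φ.vars, (v w).1 ≠ r) → Φ = 0)
    (htr : Algebra.trdeg K (MvPolynomial V K ⧸ J) = (e : ℕ))
    (hpd : ∀ (X : Scheme.{0}) (s : X ⟶ Spec (CommRingCat.of K)) [IrreducibleSpace X],
      BirationalOver K X (Spec (CommRingCat.of (MvPolynomial V K ⧸ J))) s
        (Spec.map (CommRingCat.ofHom (algebraMap K (MvPolynomial V K ⧸ J)))) →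
      PotentiallyDense K X s) : Good K I e := by
  classical
  set E : MvPolynomial V K ≃ₐ[K] MvPolynomial (Fin k × Fin n) K := renameEquiv K v with hE
  have hIE : I = J.map (E : MvPolynomial V K →+* MvPolynomial (Fin k × Fin n) K) := hIJ
  have q : (MvPolynomial V K ⧸ J) ≃ₐ[K] (MvPolynomial (Fin k × Fin n) K ⧸ I) :=
    Ideal.quotientEquivAlg J I E hIE
  refine ⟨?_, ?_, ?_, ?_⟩
  · rw [hIE]
    exact Ideal.map_isPrime_of_equiv (f := E)
  · intro r Φ hΦ hv
    have h1 : E.symm Φ ∈ J := by
      have h2 : I = J.comap (E.symm : MvPolynomial (Fin k × Fin n) K →+* MvPolynomial V K) := by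
        rw [hIE]
        exact Ideal.map_comap_of_equiv E.toRingEquiv
      rw [h2] at hΦ
      exact hΦ
    have h3 := hdom r _ h1 ?_
    · rwa [map_eq_zero_iff _ E.symm.injective] at h3
    · intro w hw
      have h4 : E.symm Φ = rename v.symm Φ := rfl
      rw [h4] at hw
      have h5 := vars_rename v.symm Φ hw
      rw [Finset.mem_image] at h5
      obtain ⟨w', hw', rfl⟩ := h5
      rw [Equiv.apply_symm_apply]
      exact hv w' hw'
  · rw [← htr]
    exact (q.trdeg_eq).symm
  · intro X s _ hX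
    exact hpd X s (birationalOver_congr q X s hX)

end Pool.Agent.Helper92.CI
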