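import Mathlib
import Pool.Agent.Helper92.CI.Trans
import Pool.Agent.Helper64.HK.Defs

/-!
# Many factors: the natural statement from the statement for the coefficients `Ix a`
-/

namespace Pool.Agent.Helper92.CI

open MvPolynomial AlgebraicGeometry CategoryTheory Pool.Agent.Helper15
open Pool.Agent.Helper64.HK (Ix Ef Mf)
open Pool.Agent.Helper28.HN (I aff)

section many

variable {k m : ℕ} {a : Fin (k + 1) → Fin (m + 1)} {d : Fin (m + 1) → Fin (k + 1) → ℕ}

/-- The ideal of the complete intersection in the chart, for the coefficients `Ix a`. -/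
noncomputable def natI {K : Type*} [Field K] (c : Ix a → K) :
    Ideal (MvPolynomial (Fin (k + 1) × Fin (m + 1)) K) :=
  Ideal.span (Set.range fun i : Fin (m + 1) => Ef (fun e => C (c e)) i fun j => aff fun l =>
    (X (j, l) : MvPolynomial (Fin (k + 1) × Fin (m + 1)) K))

/-- The monomial which belongs to an index. -/
def mkK (h : ∀ i j, d i j = if a j = i then 2 else 1) (i : Fin (m + 1))
    (p : Fin (k + 1) → I m) (q : {j // a j = i} → I m) : Mono (m + 1) (d i) := fun j =>
  if h' : a j = i then ⟨{p j, q ⟨j, h'⟩}, by rw [h, if_pos h']; rfl⟩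
  else ⟨{p j}, by rw [h, if_neg h']; rfl⟩

/-- The map of the indices of the coefficients. -/
def sgK (h : ∀ i j, d i j = if a j = i then 2 else 1) (e : Ix a) : Σ i, Mono (m + 1) (d i) :=
  ⟨e.1, mkK h e.1 e.2.1 e.2.2⟩

theorem sgK_surjective (h : ∀ i j, d i j = if a j = i then 2 else 1) :
    Function.Surjective (sgK h) := by
  rintro ⟨i, s⟩
  have h1 : ∀ j, ∃ p q : I m, if a j = i then (s j).1 = {p, q} else (s j).1 = {p} := by
    intro j
    by_cases h' : a j = i
    · obtain ⟨p, q, hpq⟩ := Multiset.card_eq_two.mp ((s j).2.trans (by rw [h, if_pos h']))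
      exact ⟨p, q, by rw [if_pos h']; exact hpq⟩
    · obtain ⟨p, hp⟩ := Multiset.card_eq_one.mp ((s j).2.trans (by rw [h, if_neg h']))
      exact ⟨p, p, by rw [if_neg h']; exact hp⟩
  choose p q hpq using h1
  refine ⟨⟨i, p, fun j => q j.1⟩, ?_⟩
  show (⟨i, mkK h i p fun j => q j.1⟩ : Σ i, Mono (m + 1) (d i)) = ⟨i, s⟩
  congr 1
  funext j
  have h2 := hpq j
  unfold mkK
  split_ifs with h'
  · rw [if_pos h'] at h2
    exact Subtype.ext h2.symm
  · rw [if_neg h'] at h2
    exact Subtype.ext h2.symm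

theorem mono_mkK {K : Type*} [Field K] (h : ∀ i j, d i j = if a j = i then 2 else 1)
    (i : Fin (m + 1)) (p : Fin (k + 1) → I m) (q : {j // a j = i} → I m) :
    mono K (mkK h i p q) = (∏ j, coord K (k + 1) (m + 1) j (p j)) *
      ∏ j : {j // a j = i}, coord K (k + 1) (m + 1) j.1 (q j) := by
  unfold mono
  have h1 : ∀ j, (((mkK h i p q j : Multiset (Fin (m + 1 + 1)))).map
      (coord K (k + 1) (m + 1) j)).prod = coord K (k + 1) (m + 1) j (p j) *
      (if h' : a j = i then coord K (k + 1) (m + 1) j (q ⟨j, h'⟩) else 1) := by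
    intro j
    unfold mkK
    split_ifs with h'
    · simp
    · simp
  rw [Finset.prod_congr rfl fun j _ => h1 j, Finset.prod_mul_distrib]
  congr 1
  rw [Fintype.prod_dite]
  simp

theorem idealK {K : Type} [Field K] [NumberField K]
    (h : ∀ i j, d i j = if a j = i then 2 else 1) (c : Ix a → K)
    [DecidableEq (Σ i, Mono (m + 1) (d i))] :
    ideal d (fun s => ∑ e with sgK h e = s, algebraMap ℚ K 1 * c e) = natI c := by
  rw [ideal, natI]
  congr 2
  funext i
  rw [form_sum (sgK h) (fun e => algebraMap ℚ K 1 * c e) i, Finset.sum_filter]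
  have h1 : ∀ e : Ix a, (if (sgK h e).1 = i then
      C (algebraMap ℚ K 1 * c e) * mono K (sgK h e).2 else 0) =
      if e.1 = i then C (c e) * mono K (mkK h e.1 e.2.1 e.2.2) else
        (0 : MvPolynomial (Fin (k + 1) × Fin (m + 1)) K) := by
    intro e
    rw [map_one, one_mul]
    rfl
  rw [Finset.sum_congr rfl fun e _ => h1 e, Fintype.sum_sigma, Finset.sum_eq_single i]
  · rw [Ef, Mf, Fintype.sum_prod_type]
    refine Finset.sum_congr rfl fun p _ => Finset.sum_congr rfl fun q _ => ?_
    rw [if_pos rfl, mono_mkK, mul_assoc]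
    rfl
  · intro i' _ hi'
    apply Finset.sum_eq_zero
    intro e _
    rw [if_neg hi']
  · intro h2
    exact absurd (Finset.mem_univ _) h2

/-- The natural statement. -/
theorem natural_of (h : ∀ i j, d i j = if a j = i then 2 else 1) (e : ℕ)
    (hfull : ∃ Δ : MvPolynomial (Ix a) ℚ, Δ ≠ 0 ∧ ∀ (K : Type) [Field K] [NumberField K]
      (c : Ix a → K), aeval c Δ ≠ 0 → Good K (natI c) e) :
    ∃ Δ : MvPolynomial (Σ i, Mono (m + 1) (d i)) ℚ, Δ ≠ 0 ∧
    ∀ (K : Type) [Field K] [NumberField K] (c : (Σ i, Mono (m + 1) (d i)) → K),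
      aeval c Δ ≠ 0 → Good K (ideal d c) e := by
  classical
  refine transfer (sgK h) (sgK_surjective h) (fun _ => 1) (fun _ => one_ne_zero)
    (fun K _ _ c => Good K (ideal d c) e) ?_
  obtain ⟨Δ, hΔ, H⟩ := hfull
  refine ⟨Δ, hΔ, fun K _ _ c hc => ?_⟩
  rw [idealK h c]
  exact H K c hc

end many

end Pool.Agent.Helper92.CI
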