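import Mathlib
import Pool.Agent.Helper92.CI.Trans
import Pool.Agent.Helper92.HN.Final

/-!
# Two factors, type 1: the natural statement
-/

namespace Pool.Agent.Helper92.CI

open MvPolynomial AlgebraicGeometry CategoryTheory Pool.Agent.Helper15

/-- The type of a family of multidegrees. -/
theorem exists_type {n k : ℕ} (d : Fin n → Fin k → ℕ) (hd : ∀ i r, 0 < d i r)
    (hs : ∀ r, ∑ i, d i r = n + 1) :
    ∃ a : Fin k → Fin n, ∀ i r, d i r = if a r = i then 2 else 1 := by
  have key : ∀ r, ∃ j, ∀ i, d i r = if j = i then 2 else 1 := by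
    intro r
    obtain ⟨j, hj⟩ : ∃ j, 2 ≤ d j r := by
      by_contra hcon
      push Not at hcon
      have h1 : ∀ i ∈ (Finset.univ : Finset (Fin n)), d i r = 1 := fun i _ => by
        have := hcon i
        have := hd i r
        omega
      have h2 := hs r
      rw [Finset.sum_congr rfl h1] at h2
      simp at h2
    refine ⟨j, ?_⟩
    have h3 := hs r
    rw [← Finset.add_sum_erase _ _ (Finset.mem_univ j)] at h3
    have h4 : ∑ i ∈ Finset.univ.erase j, 1 ≤ ∑ i ∈ Finset.univ.erase j, d i r :=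
      Finset.sum_le_sum fun i _ => hd i r
    have h5 : ∑ i ∈ (Finset.univ : Finset (Fin n)).erase j, 1 = n - 1 := by
      rw [Finset.sum_const, Finset.card_erase_of_mem (Finset.mem_univ j)]
      simp
    have hn : 0 < n := Nat.pos_of_ne_zero fun h => by subst h; exact j.elim0
    have h6 : d j r = 2 := by omega
    intro i
    split_ifs with h
    · rw [← h]; exact h6
    · by_contra hi
      have h7 : 2 ≤ d i r := by
        have := hd i r
        omega
      have h8 : i ∈ (Finset.univ : Finset (Fin n)).erase j :=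
        Finset.mem_erase.mpr ⟨fun h' => h h'.symm, Finset.mem_univ i⟩
      have h9 : ∑ i ∈ (Finset.univ : Finset (Fin n)).erase j, 1 <
          ∑ i ∈ (Finset.univ : Finset (Fin n)).erase j, d i r :=
        Finset.sum_lt_sum (fun i _ => hd i r) ⟨i, h8, by omega⟩
      omega
  choose a ha using key
  exact ⟨a, fun i r => ha r i⟩

/-- The equivalence of the sets of variables. -/
def vv (n : ℕ) : Fin n ⊕ Fin n ≃ Fin 2 × Fin n where
  toFun := Sum.elim (fun i => (0, i)) (fun i => (1, i))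
  invFun p := if p.1 = 0 then .inl p.2 else .inr p.2
  left_inv := by rintro (i | i) <;> simp
  right_inv := by
    rintro ⟨t, i⟩
    fin_cases t <;> simp

@[simp] theorem vv_inl {n : ℕ} (i : Fin n) : vv n (.inl i) = (0, i) := rfl

@[simp] theorem vv_inr {n : ℕ} (i : Fin n) : vv n (.inr i) = (1, i) := rfl

/-- A monomial in two factors. -/
def mk2 {n : ℕ} {d : Fin 2 → ℕ} (s t : Multiset (Fin (n + 1))) (hs : s.card = d 0)
    (ht : t.card = d 1) : Mono n d
  | 0 => ⟨s, hs⟩
  | 1 => ⟨t, ht⟩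

theorem mk2_eq {n : ℕ} {d : Fin 2 → ℕ} (s : Mono n d) :
    mk2 (s 0).1 (s 1).1 (s 0).2 (s 1).2 = s := by
  funext r
  fin_cases r <;> rfl

theorem mono_mk2 {K : Type*} [Field K] {n : ℕ} {d : Fin 2 → ℕ} (s t : Multiset (Fin (n + 1)))
    (hs : s.card = d 0) (ht : t.card = d 1) :
    mono K (mk2 s t hs ht : Mono n d) =
      (s.map (coord K 2 n 0)).prod * (t.map (coord K 2 n 1)).prod := by
  unfold mono
  rw [Fin.prod_univ_two]
  rfl

/-- The elimination property. -/
theorem dom_of {K : Type*} [Field K] {n : ℕ} {J : Ideal (MvPolynomial (Fin n ⊕ Fin n) K)}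
    (h : ∀ Φ : MvPolynomial (Fin n) K, rename Sum.inl Φ ∈ J ∨ rename Sum.inr Φ ∈ J → Φ = 0)
    (r : Fin 2) (Φ : MvPolynomial (Fin n ⊕ Fin n) K) (hΦ : Φ ∈ J)
    (hv : ∀ w ∈ Φ.vars, (vv n w).1 ≠ r) : Φ = 0 := by
  fin_cases r
  · obtain ⟨q, hq⟩ := exists_rename_eq_of_vars_subset_range Φ
      (Sum.inr : Fin n → Fin n ⊕ Fin n) Sum.inr_injective (by
        rintro w hw
        have h1 := hv w hw
        rcases w with i | i
        · simp at h1
        · exact ⟨i, rfl⟩)
    rw [← hq] at hΦ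
    rw [← hq, h q (Or.inr hΦ), map_zero]
  · obtain ⟨q, hq⟩ := exists_rename_eq_of_vars_subset_range Φ
      (Sum.inl : Fin n → Fin n ⊕ Fin n) Sum.inl_injective (by
        rintro w hw
        have h1 := hv w hw
        rcases w with i | i
        · exact ⟨i, rfl⟩
        · simp at h1)
    rw [← hq] at hΦ
    rw [← hq, h q (Or.inl hΦ), map_zero]

theorem rename_aff_inl {K : Type*} [Field K] {m : ℕ} (i : Fin (m + 2)) :
    rename (vv (m + 1)) ((Helper28.HN.aff fun j =>
      (X (.inl j) : MvPolynomial (Fin (m + 1) ⊕ Fin (m + 1)) K)) i) = coord K 2 (m + 1) 0 i := by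
  unfold Helper28.HN.aff coord
  refine Fin.cases ?_ (fun j => ?_) i
  · simp
  · simp

theorem rename_aff_inr {K : Type*} [Field K] {m : ℕ} (i : Fin (m + 2)) :
    rename (vv (m + 1)) ((Helper28.HN.aff fun j =>
      (X (.inr j) : MvPolynomial (Fin (m + 1) ⊕ Fin (m + 1)) K)) i) = coord K 2 (m + 1) 1 i := by
  unfold Helper28.HN.aff coord
  refine Fin.cases ?_ (fun j => ?_) i
  · simp
  · simp

section type1

open Pool.Agent.Helper28.HN (Ix lf qf pq aff)

variable {m : ℕ}

theorem qf_sum {S : Type*} [CommRing S] (c : Ix m → S) (x y : Fin (m + 2) → S) :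
    qf c x x y y = ∑ e : Fin (m + 2) × Fin (m + 2) × Fin (m + 2) × Fin (m + 2),
      4 * c (.inr e) * (x e.1 * x e.2.1) * (y e.2.2.1 * y e.2.2.2) := by
  simp only [qf, pq, Fintype.sum_prod_type]
  have e1 : ∑ i, ∑ j, ∑ k, ∑ l, c (.inr (j, i, k, l)) * x i * x j * y k * y l =
      ∑ i, ∑ j, ∑ k, ∑ l, c (.inr (i, j, k, l)) * x i * x j * y k * y l := by
    rw [Finset.sum_comm]
    refine Finset.sum_congr rfl fun i _ => Finset.sum_congr rfl fun j _ =>
      Finset.sum_congr rfl fun k _ => Finset.sum_congr rfl fun l _ => by ring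
  have e2 : ∑ i, ∑ j, ∑ k, ∑ l, c (.inr (i, j, l, k)) * x i * x j * y k * y l =
      ∑ i, ∑ j, ∑ k, ∑ l, c (.inr (i, j, k, l)) * x i * x j * y k * y l := by
    refine Finset.sum_congr rfl fun i _ => Finset.sum_congr rfl fun j _ => ?_
    rw [Finset.sum_comm]
    refine Finset.sum_congr rfl fun k _ => Finset.sum_congr rfl fun l _ => by ring
  have e3 : ∑ i, ∑ j, ∑ k, ∑ l, c (.inr (j, i, l, k)) * x i * x j * y k * y l =
      ∑ i, ∑ j, ∑ k, ∑ l, c (.inr (i, j, k, l)) * x i * x j * y k * y l := by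
    rw [← e2, Finset.sum_comm]
    refine Finset.sum_congr rfl fun i _ => Finset.sum_congr rfl fun j _ =>
      Finset.sum_congr rfl fun k _ => Finset.sum_congr rfl fun l _ => by ring
  have e4 : ∀ i j k l, (c (.inr (i, j, k, l)) + c (.inr (j, i, k, l)) + c (.inr (i, j, l, k)) +
      c (.inr (j, i, l, k))) * x i * x j * y k * y l =
      c (.inr (i, j, k, l)) * x i * x j * y k * y l +
      c (.inr (j, i, k, l)) * x i * x j * y k * y l +
      c (.inr (i, j, l, k)) * x i * x j * y k * y l +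
      c (.inr (j, i, l, k)) * x i * x j * y k * y l := fun i j k l => by ring
  simp only [e4, Finset.sum_add_distrib]
  rw [e1, e2, e3, ← Finset.sum_add_distrib, ← Finset.sum_add_distrib, ← Finset.sum_add_distrib]
  refine Finset.sum_congr rfl fun i _ => ?_
  rw [← Finset.sum_add_distrib, ← Finset.sum_add_distrib, ← Finset.sum_add_distrib]
  refine Finset.sum_congr rfl fun j _ => ?_
  rw [← Finset.sum_add_distrib, ← Finset.sum_add_distrib, ← Finset.sum_add_distrib]
  refine Finset.sum_congr rfl fun k _ => ?_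
  rw [← Finset.sum_add_distrib, ← Finset.sum_add_distrib, ← Finset.sum_add_distrib]
  refine Finset.sum_congr rfl fun l _ => ?_
  ring

variable {d : Fin (m + 1) → Fin 2 → ℕ} {i0 : Fin (m + 1)}

/-- The map of the indices of the coefficients. -/
def sg1 (h : ∀ i r, d i r = if i0 = i then 2 else 1) : Ix m → Σ i, Mono (m + 1) (d i)
  | .inl (r, i, j) => ⟨i0.succAbove r, mk2 {i} {j}
      (by rw [h, if_neg (Fin.succAbove_ne i0 r).symm]; rfl)
      (by rw [h, if_neg (Fin.succAbove_ne i0 r).symm]; rfl)⟩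
  | .inr (i, j, k, l) => ⟨i0, mk2 {i, j} {k, l}
      (by rw [h, if_pos rfl]; rfl) (by rw [h, if_pos rfl]; rfl)⟩

theorem sg1_surjective (h : ∀ i r, d i r = if i0 = i then 2 else 1) :
    Function.Surjective (sg1 h) := by
  rintro ⟨i, s⟩
  by_cases hi : i = i0
  · subst hi
    obtain ⟨a, b, hab⟩ := Multiset.card_eq_two.mp ((s 0).2.trans (by rw [h, if_pos rfl]))
    obtain ⟨a', b', hab'⟩ := Multiset.card_eq_two.mp ((s 1).2.trans (by rw [h, if_pos rfl]))
    refine ⟨.inr (a, b, a', b'), ?_⟩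
    show (⟨i, mk2 {a, b} {a', b'} _ _⟩ : Σ i, Mono (m + 1) (d i)) = ⟨i, s⟩
    congr 1
    funext r
    fin_cases r
    · exact Subtype.ext hab.symm
    · exact Subtype.ext hab'.symm
  · obtain ⟨r, rfl⟩ := Fin.exists_succAbove_eq hi
    obtain ⟨a, ha⟩ := Multiset.card_eq_one.mp ((s 0).2.trans (by
      rw [h, if_neg (Fin.succAbove_ne i0 r).symm]))
    obtain ⟨b, hb⟩ := Multiset.card_eq_one.mp ((s 1).2.trans (by
      rw [h, if_neg (Fin.succAbove_ne i0 r).symm]))
    refine ⟨.inl (r, a, b), ?_⟩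
    show (⟨i0.succAbove r, mk2 {a} {b} _ _⟩ : Σ i, Mono (m + 1) (d i)) = ⟨i0.succAbove r, s⟩
    congr 1
    funext t
    fin_cases t
    · exact Subtype.ext ha.symm
    · exact Subtype.ext hb.symm

/-- The factors. -/
def mu1 : Ix m → ℚ
  | .inl _ => 1
  | .inr _ => 4

theorem ideal1 {K : Type} [Field K] [NumberField K]
    (h : ∀ i r, d i r = if i0 = i then 2 else 1) (c : Ix m → K)
    [DecidableEq (Σ i, Mono (m + 1) (d i))] :
    ideal d (fun s => ∑ e with sg1 h e = s, algebraMap ℚ K (mu1 e) * c e) =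
      (Helper47.HN.chartIdeal c).map (rename (vv (m + 1)) :
        MvPolynomial (Fin (m + 1) ⊕ Fin (m + 1)) K →ₐ[K] MvPolynomial (Fin 2 × Fin (m + 1)) K) := by
  have hform := fun i => form_sum (sg1 h) (fun e => algebraMap ℚ K (mu1 e) * c e) i
  have h1 : ∀ r, form (d (i0.succAbove r)) (fun s => ∑ e with sg1 h e = ⟨i0.succAbove r, s⟩,
      algebraMap ℚ K (mu1 e) * c e) = rename (vv (m + 1)) (lf (fun e => C (c e)) r
        (aff fun i => (X (.inl i) : MvPolynomial (Fin (m + 1) ⊕ Fin (m + 1)) K))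
        (aff fun i => X (.inr i))) := by
    intro r
    rw [hform, Finset.sum_filter, Fintype.sum_sum_type]
    have e1 : ∀ q : Fin (m + 2) × Fin (m + 2) × Fin (m + 2) × Fin (m + 2),
        (if (sg1 h (.inr q)).1 = i0.succAbove r then
          C (algebraMap ℚ K (mu1 (.inr q)) * c (.inr q)) * mono K (sg1 h (.inr q)).2 else 0) =
        (0 : MvPolynomial (Fin 2 × Fin (m + 1)) K) := by
      rintro ⟨i, j, k, l⟩
      rw [if_neg]
      exact (Fin.succAbove_ne i0 r).symm
    rw [Finset.sum_eq_zero (fun q _ => e1 q), add_zero, Fintype.sum_prod_type]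
    rw [Finset.sum_eq_single r]
    · simp only [lf, map_sum, map_mul, rename_C]
      rw [Fintype.sum_prod_type]
      refine Finset.sum_congr rfl fun i _ => Finset.sum_congr rfl fun j _ => ?_
      have e5 : (sg1 h (.inl (r, i, j))).1 = i0.succAbove r := rfl
      rw [if_pos e5, rename_aff_inl, rename_aff_inr]
      simp only [sg1, mu1, mono_mk2, map_one, one_mul, Multiset.map_singleton,
        Multiset.prod_singleton]
      rw [mul_assoc]
    · intro r' _ hr'
      apply Finset.sum_eq_zero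
      rintro ⟨i, j⟩ _
      rw [if_neg]
      intro h2
      exact hr' (Fin.succAbove_right_injective h2)
    · intro h2
      exact absurd (Finset.mem_univ _) h2
  have h2 : form (d i0) (fun s => ∑ e with sg1 h e = ⟨i0, s⟩,
      algebraMap ℚ K (mu1 e) * c e) = rename (vv (m + 1)) (qf (fun e => C (c e))
        (aff fun i => (X (.inl i) : MvPolynomial (Fin (m + 1) ⊕ Fin (m + 1)) K))
        (aff fun i => X (.inl i)) (aff fun i => X (.inr i)) (aff fun i => X (.inr i))) := by
    rw [hform, Finset.sum_filter, Fintype.sum_sum_type]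
    have e1 : ∀ q : Fin m × Fin (m + 2) × Fin (m + 2),
        (if (sg1 h (.inl q)).1 = i0 then
          C (algebraMap ℚ K (mu1 (.inl q)) * c (.inl q)) * mono K (sg1 h (.inl q)).2 else 0) =
        (0 : MvPolynomial (Fin 2 × Fin (m + 1)) K) := by
      rintro ⟨r, i, j⟩
      rw [if_neg]
      exact Fin.succAbove_ne i0 r
    rw [Finset.sum_eq_zero (fun q _ => e1 q), zero_add, qf_sum, map_sum]
    refine Finset.sum_congr rfl fun e _ => ?_
    obtain ⟨i, j, k, l⟩ := e
    have e5 : (sg1 h (.inr (i, j, k, l))).1 = i0 := rfl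
    rw [if_pos e5]
    simp only [map_mul, rename_C, rename_aff_inl, rename_aff_inr]
    simp only [sg1, mu1, mono_mk2]
    have e2 : (algebraMap ℚ K) 4 = 4 := map_ofNat _ 4
    have e3 : (rename (vv (m + 1)) (4 : MvPolynomial (Fin (m + 1) ⊕ Fin (m + 1)) K)) = 4 :=
      map_ofNat _ 4
    have e4 : (C (4 : K) : MvPolynomial (Fin 2 × Fin (m + 1)) K) = 4 := map_ofNat _ 4
    rw [e2, e3, e4]
    simp only [Multiset.insert_eq_cons, Multiset.map_cons, Multiset.map_singleton,
      Multiset.prod_cons, Multiset.prod_singleton]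
    rw [mul_assoc (4 * C (c (Sum.inr (i, j, k, l))))]
  rw [ideal, Helper47.HN.chartIdeal, Ideal.map_span]
  congr 1
  ext f
  constructor
  · rintro ⟨i, rfl⟩
    by_cases hi : i = i0
    · subst hi
      exact ⟨_, Or.inr rfl, h2.symm⟩
    · obtain ⟨r, rfl⟩ := Fin.exists_succAbove_eq hi
      exact ⟨_, Or.inl ⟨r, rfl⟩, (h1 r).symm⟩
  · rintro ⟨g, ⟨r, rfl⟩ | hg, rfl⟩
    · exact ⟨i0.succAbove r, h1 r⟩
    · rw [Set.mem_singleton_iff] at hg
      subst hg
      exact ⟨i0, h2⟩

theorem type1 (hm : 4 ≤ m) (h : ∀ i r, d i r = if i0 = i then 2 else 1) :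
    ∃ Δ : MvPolynomial (Σ i, Mono (m + 1) (d i)) ℚ, Δ ≠ 0 ∧
    ∀ (K : Type) [Field K] [NumberField K] (a : (Σ i, Mono (m + 1) (d i)) → K),
      aeval a Δ ≠ 0 → Good K (ideal d a) (m + 1) := by
  classical
  refine transfer (sg1 h) (sg1_surjective h) mu1 (fun e => by rcases e with e | e <;> norm_num [mu1])
    (fun K _ _ a => Good K (ideal d a) (m + 1)) ?_
  obtain ⟨Δ, hΔ, H⟩ := HN.final hm
  refine ⟨Δ, hΔ, fun K _ _ c hc => ?_⟩
  obtain ⟨h1, h2, h3, h4⟩ := H K c hc
  exact good_of (vv (m + 1)) (ideal1 h c) h1 (fun r Φ hΦ hv => dom_of h2 r Φ hΦ hv) h3 h4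

end type1

end Pool.Agent.Helper92.CI
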