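import Mathlib
import Pool.Agent.Helper92.HK.Full
import Pool.Agent.Helper92.CI.One
import Pool.Agent.Helper2.KX.S2

/-!
# The natural statement for products of planes, from the irreducibility over the chart
-/

namespace Pool.Agent.Helper92.CI

open MvPolynomial AlgebraicGeometry CategoryTheory Pool.Agent.Helper15
open Pool.Agent.Helper64.HK (Ix Ef Mf)
open Pool.Agent.Helper28.HN (I aff)
open Pool.Agent.Helper77.HK (NS Dp vK natI_eq pm pm_injective dom_factor)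
open Pool.Agent.Helper47.HK (chartIdeal Dom NS.Ap_ne trdeg_eq')
open Pool.Agent.Helper82.HK.Gen (chart_nzd chart_eq_dom)

/-- Prime, elimination, dimension. -/
def Pre (K : Type) [Field K] {k n : ℕ} (I : Ideal (MvPolynomial (Fin k × Fin n) K)) (e : ℕ) :
    Prop :=
  I.IsPrime ∧ (∀ r : Fin k, ∀ Φ ∈ I, (∀ v ∈ Φ.vars, v.1 ≠ r) → Φ = 0) ∧
  Algebra.trdeg K (MvPolynomial (Fin k × Fin n) K ⧸ I) = (e : ℕ)

theorem pre_of {K : Type} [Field K] {k n e : ℕ} {V : Type} (v : V ≃ Fin k × Fin n)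
    {J : Ideal (MvPolynomial V K)} {I : Ideal (MvPolynomial (Fin k × Fin n) K)}
    (hIJ : I = J.map (rename v : MvPolynomial V K →ₐ[K] MvPolynomial (Fin k × Fin n) K))
    (hJ : J.IsPrime)
    (hdom : ∀ r : Fin k, ∀ Φ ∈ J, (∀ w ∈ Φ.vars, (v w).1 ≠ r) → Φ = 0)
    (htr : Algebra.trdeg K (MvPolynomial V K ⧸ J) = (e : ℕ)) : Pre K I e := by
  classical
  set E : MvPolynomial V K ≃ₐ[K] MvPolynomial (Fin k × Fin n) K := renameEquiv K v with hE
  have hIE : I = J.map (E : MvPolynomial V K →+* MvPolynomial (Fin k × Fin n) K) := hIJ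
  have q : (MvPolynomial V K ⧸ J) ≃ₐ[K] (MvPolynomial (Fin k × Fin n) K ⧸ I) :=
    Ideal.quotientEquivAlg J I E hIE
  refine ⟨?_, ?_, ?_⟩
  · rw [hIE]
    exact Ideal.map_isPrime_of_equiv (f := E)
  · intro r Φ hΦ hv
    have h1 : E.symm Φ ∈ J := by
      have h2 : I = J.comap (E.symm : MvPolynomial (Fin k × Fin n) K →+* MvPolynomial V K) := by
        rw [hIE]
        exact Ideal.map_comap_of_equiv E.toRingEquiv
      rw [h2] at hΦ
      exact hΦ
    have h3 := hdom r _ h1 ?_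
    · rwa [map_eq_zero_iff _ E.symm.injective] at h3
    · intro w hw
      have h4 : E.symm Φ = rename v.symm Φ := rfl
      rw [h4] at hw
      have h5 := vars_rename v.symm Φ hw
      rw [Finset.mem_image] at h5
      obtain ⟨w', hw', rfl⟩ := h5
      rw [Equiv.apply_symm_apply]
      exact hv w' hw'
  · rw [← htr]
    exact (q.trdeg_eq).symm

section pre

variable {k m : ℕ}

theorem pre_natI (a : Fin (k + 1) → Fin (m + 1))
    (hNS : ∀ a' : Fin (k + 1) → Fin (m + 1), ∃ Δ : MvPolynomial (Ix a') ℚ, Δ ≠ 0 ∧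
      ∀ (K : Type) [Field K] [NumberField K] (c : Ix a' → K), aeval c Δ ≠ 0 → NS c ∧ Dp c ≠ 0) :
    ∃ Δ : MvPolynomial (Ix a) ℚ, Δ ≠ 0 ∧ ∀ (K : Type) [Field K] [NumberField K]
      (c : Ix a → K), aeval c Δ ≠ 0 → Pre K (natI c) (k * (m + 1)) := by
  classical
  have hnz : ∀ a' : Fin (k + 1) → Fin (m + 1), ∃ Δ : MvPolynomial (Ix a') ℚ, Δ ≠ 0 ∧
      ∀ (K : Type) [Field K] [NumberField K] (c : Ix a' → K), aeval c Δ ≠ 0 →
        NS c ∧ Dp c ≠ 0 ∧ (chartIdeal c).IsPrime ∧ Dom (chartIdeal c) := by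
    intro a'
    obtain ⟨Δ1, hΔ1, H1⟩ := hNS a'
    obtain ⟨Δ2, hΔ2, H2⟩ := chart_nzd (a := a') (by
      obtain ⟨c, hc⟩ := HN.exists_rat hΔ1
      exact ⟨c, H1 ℚ c hc⟩)
    refine ⟨Δ1 * Δ2, mul_ne_zero hΔ1 hΔ2, fun K _ _ c hc => ?_⟩
    rw [map_mul, mul_ne_zero_iff] at hc
    obtain ⟨h1, h2⟩ := H1 K c hc.1
    exact ⟨h1, h2, chart_eq_dom h1 h2 (H2 K c hc.2)⟩
  obtain ⟨Δ1, hΔ1, H1⟩ := hnz a
  have hr : ∀ r : Fin (k + 1), ∃ Δ : MvPolynomial (Ix (a ∘ Equiv.swap 0 r)) ℚ, Δ ≠ 0 ∧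
      ∀ (K : Type) [Field K] [NumberField K] (c : Ix (a ∘ Equiv.swap 0 r) → K),
        aeval c Δ ≠ 0 → Dom (chartIdeal c) := by
    intro r
    obtain ⟨Δ, hΔ, H⟩ := hnz (a ∘ Equiv.swap 0 r)
    exact ⟨Δ, hΔ, fun K _ _ c hc => (H K c hc).2.2.2⟩
  choose Δ2 hΔ2 H2 using hr
  refine ⟨Δ1 * (∏ r, rename (pm (Equiv.swap 0 r)) (Δ2 r)),
    mul_ne_zero hΔ1 (Finset.prod_ne_zero_iff.mpr fun r _ =>
      (map_ne_zero_iff _ (rename_injective _ (pm_injective _))).mpr (hΔ2 r)),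
    fun K _ _ c hc => ?_⟩
  simp only [map_mul, map_prod, mul_ne_zero_iff, aeval_rename] at hc
  obtain ⟨h1, h2⟩ := hc
  rw [Finset.prod_ne_zero_iff] at h2
  obtain ⟨hns, hD, hprime, hdom⟩ := H1 K c h1
  refine pre_of (vK k m) (natI_eq c) hprime ?_ (trdeg_eq' (NS.Ap_ne hns) hD le_rfl hdom)
  intro r Φ hΦ hv
  have hd2 : Dom (chartIdeal fun e => c (pm (Equiv.swap 0 r) e)) :=
    H2 r K _ (h2 r (Finset.mem_univ r))
  have h5 : rename (vK k m) Φ = 0 := by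
    refine dom_factor r hd2 _ ?_ ?_
    · rw [natI_eq]
      exact Ideal.mem_map_of_mem _ hΦ
    · intro v hvv
      have h6 := vars_rename (vK k m) Φ hvv
      rw [Finset.mem_image] at h6
      obtain ⟨w, hw, rfl⟩ := h6
      exact hv w hw
  exact (map_eq_zero_iff _ (rename_injective _ (vK k m).injective)).mp h5

/-- The natural statement for prime, elimination, dimension. -/
theorem natural_pre {a : Fin (k + 1) → Fin (m + 1)} {d : Fin (m + 1) → Fin (k + 1) → ℕ}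
    (h : ∀ i j, d i j = if a j = i then 2 else 1) (e : ℕ)
    (hfull : ∃ Δ : MvPolynomial (Ix a) ℚ, Δ ≠ 0 ∧ ∀ (K : Type) [Field K] [NumberField K]
      (c : Ix a → K), aeval c Δ ≠ 0 → Pre K (natI c) e) :
    ∃ Δ : MvPolynomial (Σ i, Mono (m + 1) (d i)) ℚ, Δ ≠ 0 ∧
    ∀ (K : Type) [Field K] [NumberField K] (c : (Σ i, Mono (m + 1) (d i)) → K),
      aeval c Δ ≠ 0 → Pre K (ideal d c) e := by
  classical
  refine transfer (sgK h) (sgK_surjective h) (fun _ => 1) (fun _ => one_ne_zero)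
    (fun K _ _ c => Pre K (ideal d c) e) ?_
  obtain ⟨Δ, hΔ, H⟩ := hfull
  refine ⟨Δ, hΔ, fun K _ _ c hc => ?_⟩
  rw [idealK h c]
  exact H K c hc

end pre

theorem coord_two (K : Type*) [Field K] (k : ℕ) (r : Fin (k + 1)) :
    coord K (k + 1) 2 r = Helper2.KX.aff K k r := by
  funext i
  fin_cases i <;> rfl

theorem form_two {K : Type} [Field K] {k : ℕ} (d : Fin (k + 1) → ℕ) (a : Mono 2 d → K) :
    form d a = Helper2.KX.formS d a := by
  unfold form Helper2.KX.formS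
  refine Finset.sum_congr rfl fun s _ => ?_
  congr 1
  refine Finset.prod_congr rfl fun r _ => ?_
  rw [coord_two]

/-- The coefficients of two forms. -/
def ix2 {k : ℕ} (d : Fin 2 → Fin (k + 1) → ℕ) :
    (∀ r, Sym (Fin 3) (d 0 r)) ⊕ (∀ r, Sym (Fin 3) (d 1 r)) → Σ i, Mono 2 (d i) :=
  Sum.elim (fun s => ⟨0, s⟩) fun s => ⟨1, s⟩

theorem ix2_injective {k : ℕ} (d : Fin 2 → Fin (k + 1) → ℕ) : Function.Injective (ix2 d) := by
  rintro (s | s) (t | t) h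
  · have := Sigma.mk.inj_iff.mp h
    rw [eq_of_heq this.2]
  · have h1 : (0 : Fin 2) = 1 := congrArg Sigma.fst h
    exact absurd h1 (by decide)
  · have h1 : (1 : Fin 2) = 0 := congrArg Sigma.fst h
    exact absurd h1 (by decide)
  · have := Sigma.mk.inj_iff.mp h
    rw [eq_of_heq this.2]

/-- Products of planes. -/
theorem planes_of {k : ℕ} (hk : 1 ≤ k)
    (hNS : ∀ a' : Fin (k + 1) → Fin (1 + 1), ∃ Δ : MvPolynomial (Ix a') ℚ, Δ ≠ 0 ∧
      ∀ (K : Type) [Field K] [NumberField K] (c : Ix a' → K), aeval c Δ ≠ 0 → NS c ∧ Dp c ≠ 0)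
    (d : Fin 2 → Fin (k + 1) → ℕ) (hd : ∀ i r, 0 < d i r) (hs : ∀ r, ∑ i, d i r = 2 + 1) :
    ∃ Δ : MvPolynomial (Σ i, Mono 2 (d i)) ℚ, Δ ≠ 0 ∧
    ∀ (K : Type) [Field K] [NumberField K] (a : (Σ i, Mono 2 (d i)) → K),
      aeval a Δ ≠ 0 → Good K (ideal d a) (k * 2) := by
  obtain ⟨a, ha⟩ := exists_type d hd hs
  obtain ⟨Δ1, hΔ1, H1⟩ := natural_pre ha _ (pre_natI a hNS)
  have h3 : ∀ r, d 0 r + d 1 r = 3 := by
    intro r
    have := hs r
    rwa [Fin.sum_univ_two] at this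
  obtain ⟨Δ2, hΔ2, H2⟩ := Helper2.KX.main_all.{0} k hk (d 0) (d 1) (hd 0) (hd 1) h3
  have e2 : (rename (ix2 d) (map (Int.castRingHom ℚ) Δ2)) ≠ 0 := by
    refine (map_ne_zero_iff _ (rename_injective _ (ix2_injective d))).mpr ?_
    exact (map_ne_zero_iff _ (map_injective _ Int.cast_injective)).mpr hΔ2
  refine ⟨Δ1 * rename (ix2 d) (map (Int.castRingHom ℚ) Δ2), mul_ne_zero hΔ1 e2,
    fun K _ _ c hc => ?_⟩
  rw [map_mul, mul_ne_zero_iff, aeval_rename] at hc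
  obtain ⟨hp, hel, htr⟩ := H1 K c hc.1
  refine ⟨hp, hel, htr, fun X s _ hX => ?_⟩
  have e3 : aeval (Sum.elim (fun s => c ⟨0, s⟩) fun s => c ⟨1, s⟩) Δ2 ≠ 0 := by
    have e4 : aeval (c ∘ ix2 d) (map (Int.castRingHom ℚ) Δ2) =
        aeval (Sum.elim (fun s => c ⟨0, s⟩) fun s => c ⟨1, s⟩) Δ2 := by
      rw [aeval_def, aeval_def, eval₂_map]
      have e5 : (algebraMap ℚ K).comp (Int.castRingHom ℚ) = algebraMap ℤ K := RingHom.ext_int _ _
      rw [e5]
      congr 1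
      funext x
      rcases x with x | x <;> rfl
    rw [← e4]
    exact hc.2
  obtain ⟨-, h5⟩ := H2 K (fun s => c ⟨0, s⟩) (fun s => c ⟨1, s⟩) e3
  have hF : ∀ i, form (d i) (fun s => c ⟨i, s⟩) ∈ ideal d c := fun i =>
    Ideal.subset_span ⟨i, rfl⟩
  refine h5 (ideal d c) hp ?_ ?_ ?_ X s hX
  · rw [← form_two]
    exact hF 0
  · rw [← form_two]
    exact hF 1
  · intro Φ hΦ
    have h6 := hel (Fin.last k) _ hΦ ?_
    · have hinj : Function.Injective (Prod.map Fin.castSucc id : Fin k × Fin 2 → Fin (k + 1) × Fin 2) :=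
        (Fin.castSucc_injective k).prodMap Function.injective_id
      exact (map_eq_zero_iff _ (rename_injective _ hinj)).mp h6
    · classical
      intro v hv
      have h7 := vars_rename _ Φ hv
      rw [Finset.mem_image] at h7
      obtain ⟨w, -, rfl⟩ := h7
      exact (Fin.castSucc_lt_last w.1).ne

end Pool.Agent.Helper92.CI
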