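import Mathlib
import Pool.Agent.Helper92.CI.Planes

/-!
# The natural statement for products of lines, from potential density of the chart
-/

namespace Pool.Agent.Helper92.CI

open MvPolynomial AlgebraicGeometry CategoryTheory Pool.Agent.Helper15
open Pool.Agent.Helper64.HK (Ix Ef Mf)
open Pool.Agent.Helper28.HN (I aff)
open Pool.Agent.Helper77.HK (NS Dp vK natI_eq pm pm_injective dom_factor)
open Pool.Agent.Helper47.HK (chartIdeal Dom NS.Ap_ne trdeg_eq')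

theorem pd_of {K : Type} [Field K] {k n : ℕ} {V : Type} (v : V ≃ Fin k × Fin n)
    {J : Ideal (MvPolynomial V K)} {I : Ideal (MvPolynomial (Fin k × Fin n) K)}
    (hIJ : I = J.map (rename v : MvPolynomial V K →ₐ[K] MvPolynomial (Fin k × Fin n) K))
    (hpd : ∀ (X : Scheme.{0}) (s : X ⟶ Spec (CommRingCat.of K)) [IrreducibleSpace X],
      BirationalOver K X (Spec (CommRingCat.of (MvPolynomial V K ⧸ J))) s
        (Spec.map (CommRingCat.ofHom (algebraMap K (MvPolynomial V K ⧸ J)))) →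
      PotentiallyDense K X s)
    (X : Scheme.{0}) (s : X ⟶ Spec (CommRingCat.of K)) [IrreducibleSpace X]
    (hX : BirationalOver K X (Spec (CommRingCat.of (MvPolynomial (Fin k × Fin n) K ⧸ I))) s
      (Spec.map (CommRingCat.ofHom (algebraMap K (MvPolynomial (Fin k × Fin n) K ⧸ I))))) :
    PotentiallyDense K X s := by
  have hIE : I = J.map ((renameEquiv K v : MvPolynomial V K ≃ₐ[K] _) :
    MvPolynomial V K →+* MvPolynomial (Fin k × Fin n) K) := hIJ
  exact hpd X s (birationalOver_congr (Ideal.quotientEquivAlg J I (renameEquiv K v) hIE) X s hX)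

/-- Products of lines. -/
theorem lines_of {k : ℕ}
    (hNS : ∀ a' : Fin (k + 1) → Fin (0 + 1), ∃ Δ : MvPolynomial (Ix a') ℚ, Δ ≠ 0 ∧
      ∀ (K : Type) [Field K] [NumberField K] (c : Ix a' → K), aeval c Δ ≠ 0 → NS c ∧ Dp c ≠ 0)
    (hpd : ∀ a : Fin (k + 1) → Fin (0 + 1), ∃ Δ : MvPolynomial (Ix a) ℚ, Δ ≠ 0 ∧
      ∀ (K : Type) [Field K] [NumberField K] (c : Ix a → K), aeval c Δ ≠ 0 →
      ∀ (X : Scheme.{0}) (s : X ⟶ Spec (CommRingCat.of K)) [IrreducibleSpace X],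
        BirationalOver K X (Spec (CommRingCat.of
          (MvPolynomial ((Fin k × Fin (0 + 1)) ⊕ Fin (0 + 1)) K ⧸ chartIdeal c))) s
          (Spec.map (CommRingCat.ofHom (algebraMap K
            (MvPolynomial ((Fin k × Fin (0 + 1)) ⊕ Fin (0 + 1)) K ⧸ chartIdeal c)))) →
        PotentiallyDense K X s)
    (d : Fin 1 → Fin (k + 1) → ℕ) (hd : ∀ i r, 0 < d i r) (hs : ∀ r, ∑ i, d i r = 1 + 1) :
    ∃ Δ : MvPolynomial (Σ i, Mono 1 (d i)) ℚ, Δ ≠ 0 ∧
    ∀ (K : Type) [Field K] [NumberField K] (a : (Σ i, Mono 1 (d i)) → K),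
      aeval a Δ ≠ 0 → Good K (ideal d a) (k * 1) := by
  obtain ⟨a, ha⟩ := exists_type d hd hs
  refine natural_of (m := 0) ha _ ?_
  obtain ⟨Δ1, hΔ1, H1⟩ := pre_natI a hNS
  obtain ⟨Δ2, hΔ2, H2⟩ := hpd a
  refine ⟨Δ1 * Δ2, mul_ne_zero hΔ1 hΔ2, fun K _ _ c hc => ?_⟩
  rw [map_mul, mul_ne_zero_iff] at hc
  obtain ⟨hp, hel, htr⟩ := H1 K c hc.1
  exact ⟨hp, hel, htr, fun X s _ hX => pd_of (vK k 0) (natI_eq c) (H2 K c hc.2) X s hX⟩

end Pool.Agent.Helper92.CI
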