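import Mathlib
import Pool.Agent.Helper92.CI.One
import Pool.Agent.Helper92.H2.Glue

/-!
# Two factors, type 2: the natural statement
-/

namespace Pool.Agent.Helper92.CI

open MvPolynomial AlgebraicGeometry CategoryTheory Pool.Agent.Helper15

section type2

open Pool.Agent.Helper24.H2 (Ix Bi bf sf tf)
open Pool.Agent.Helper28.HN (aff)

variable {m : ℕ}

theorem sf_sum {S : Type*} [CommRing S] (c : Ix m → S) (x y : Fin (m + 2) → S) :
    sf c x x y = ∑ e : Fin (m + 2) × Fin (m + 2) × Fin (m + 2),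
      2 * c (.inr (.inl e)) * (x e.1 * x e.2.1) * y e.2.2 := by
  simp only [sf, Fintype.sum_prod_type]
  have e1 : ∑ i, ∑ j, ∑ k, c (.inr (.inl (j, i, k))) * x i * x j * y k =
      ∑ i, ∑ j, ∑ k, c (.inr (.inl (i, j, k))) * x i * x j * y k := by
    rw [Finset.sum_comm]
    refine Finset.sum_congr rfl fun i _ => Finset.sum_congr rfl fun j _ =>
      Finset.sum_congr rfl fun k _ => by ring
  have e4 : ∀ i j k, (c (.inr (.inl (i, j, k))) + c (.inr (.inl (j, i, k)))) *
      x i * x j * y k = c (.inr (.inl (i, j, k))) * x i * x j * y k +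
      c (.inr (.inl (j, i, k))) * x i * x j * y k := fun i j k => by ring
  simp only [e4, Finset.sum_add_distrib]
  rw [e1, ← Finset.sum_add_distrib]
  refine Finset.sum_congr rfl fun i _ => ?_
  rw [← Finset.sum_add_distrib]
  refine Finset.sum_congr rfl fun j _ => ?_
  rw [← Finset.sum_add_distrib]
  refine Finset.sum_congr rfl fun k _ => ?_
  ring

theorem tf_sum {S : Type*} [CommRing S] (c : Ix m → S) (x y : Fin (m + 2) → S) :
    tf c x y y = ∑ e : Fin (m + 2) × Fin (m + 2) × Fin (m + 2),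
      2 * c (.inr (.inr e)) * x e.1 * (y e.2.1 * y e.2.2) := by
  simp only [tf, Fintype.sum_prod_type]
  refine Finset.sum_congr rfl fun i _ => ?_
  have e1 : ∑ j, ∑ k, c (.inr (.inr (i, k, j))) * x i * y j * y k =
      ∑ j, ∑ k, c (.inr (.inr (i, j, k))) * x i * y j * y k := by
    rw [Finset.sum_comm]
    refine Finset.sum_congr rfl fun j _ =>
      Finset.sum_congr rfl fun k _ => by ring
  have e4 : ∀ j k, (c (.inr (.inr (i, j, k))) + c (.inr (.inr (i, k, j)))) *
      x i * y j * y k = c (.inr (.inr (i, j, k))) * x i * y j * y k +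
      c (.inr (.inr (i, k, j))) * x i * y j * y k := fun j k => by ring
  simp only [e4, Finset.sum_add_distrib]
  rw [e1, ← Finset.sum_add_distrib]
  refine Finset.sum_congr rfl fun j _ => ?_
  rw [← Finset.sum_add_distrib]
  refine Finset.sum_congr rfl fun k _ => ?_
  ring

variable {d : Fin (m + 1) → Fin 2 → ℕ} {i0 i1 : Fin (m + 1)}

/-- The numbering of the bilinear forms. -/
theorem exists_num (h01 : i0 ≠ i1) :
    Nonempty (Bi m ≃ {i : Fin (m + 1) // i ≠ i0 ∧ i ≠ i1}) := by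
  classical
  refine ⟨Fintype.equivOfCardEq ?_⟩
  have h1 : Fintype.card {i : Fin (m + 1) // i ≠ i0 ∧ i ≠ i1} = m - 1 := by
    rw [Fintype.card_subtype]
    have h2 : (Finset.univ.filter fun i : Fin (m + 1) => i ≠ i0 ∧ i ≠ i1) =
        (Finset.univ.erase i0).erase i1 := by
      ext i
      simp only [Finset.mem_filter, Finset.mem_univ, true_and, Finset.mem_erase]
      tauto
    rw [h2, Finset.card_erase_of_mem (Finset.mem_erase.mpr ⟨h01.symm, Finset.mem_univ _⟩),
      Finset.card_erase_of_mem (Finset.mem_univ _), Finset.card_univ, Fintype.card_fin]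
    omega
  rw [h1]
  have h3 : Fintype.card (Bi m) = Fintype.card (Fin (m - 1)) := by
    refine Fintype.card_congr
      { toFun := fun r => ⟨r.1.val, by have := r.2; omega⟩
        invFun := fun r => ⟨⟨r.val, by have := r.2; omega⟩, by
          have := r.2
          show r.val + 1 < m
          omega⟩
        left_inv := fun r => rfl
        right_inv := fun r => rfl }
  rw [h3, Fintype.card_fin]

/-- The map of the indices of the coefficients. -/
def sg2 (h0 : ∀ i, d i 0 = if i0 = i then 2 else 1) (h1 : ∀ i, d i 1 = if i1 = i then 2 else 1)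
    (h01 : i0 ≠ i1) (E : Bi m ≃ {i : Fin (m + 1) // i ≠ i0 ∧ i ≠ i1}) :
    Ix m → Σ i, Mono (m + 1) (d i)
  | .inl (r, i, j) => ⟨(E r).1, mk2 {i} {j}
      (by rw [h0, if_neg (E r).2.1.symm]; rfl)
      (by rw [h1, if_neg (E r).2.2.symm]; rfl)⟩
  | .inr (.inl (i, j, k)) => ⟨i0, mk2 {i, j} {k}
      (by rw [h0, if_pos rfl]; rfl) (by rw [h1, if_neg h01.symm]; rfl)⟩
  | .inr (.inr (i, j, k)) => ⟨i1, mk2 {i} {j, k}
      (by rw [h0, if_neg h01]; rfl) (by rw [h1, if_pos rfl]; rfl)⟩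

variable (h0 : ∀ i, d i 0 = if i0 = i then 2 else 1) (h1 : ∀ i, d i 1 = if i1 = i then 2 else 1)
    (h01 : i0 ≠ i1) (E : Bi m ≃ {i : Fin (m + 1) // i ≠ i0 ∧ i ≠ i1})

theorem sg2_surjective : Function.Surjective (sg2 h0 h1 h01 E) := by
  rintro ⟨i, s⟩
  by_cases hi : i = i0
  · subst hi
    obtain ⟨a, b, hab⟩ := Multiset.card_eq_two.mp ((s 0).2.trans (by rw [h0, if_pos rfl]))
    obtain ⟨a', hab'⟩ := Multiset.card_eq_one.mp ((s 1).2.trans (by rw [h1, if_neg h01.symm]))
    refine ⟨.inr (.inl (a, b, a')), ?_⟩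
    show (⟨i, mk2 {a, b} {a'} _ _⟩ : Σ i, Mono (m + 1) (d i)) = ⟨i, s⟩
    congr 1
    funext r
    fin_cases r
    · exact Subtype.ext hab.symm
    · exact Subtype.ext hab'.symm
  by_cases hi' : i = i1
  · subst hi'
    obtain ⟨a, hab⟩ := Multiset.card_eq_one.mp ((s 0).2.trans (by rw [h0, if_neg h01]))
    obtain ⟨a', b', hab'⟩ := Multiset.card_eq_two.mp ((s 1).2.trans (by rw [h1, if_pos rfl]))
    refine ⟨.inr (.inr (a, a', b')), ?_⟩
    show (⟨i, mk2 {a} {a', b'} _ _⟩ : Σ i, Mono (m + 1) (d i)) = ⟨i, s⟩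
    congr 1
    funext r
    fin_cases r
    · exact Subtype.ext hab.symm
    · exact Subtype.ext hab'.symm
  · obtain ⟨r, hr⟩ := E.surjective ⟨i, hi, hi'⟩
    obtain rfl : (E r).1 = i := by rw [hr]
    obtain ⟨a, ha⟩ := Multiset.card_eq_one.mp ((s 0).2.trans (by
      rw [h0, if_neg (E r).2.1.symm]))
    obtain ⟨b, hb⟩ := Multiset.card_eq_one.mp ((s 1).2.trans (by
      rw [h1, if_neg (E r).2.2.symm]))
    refine ⟨.inl (r, a, b), ?_⟩
    show (⟨(E r).1, mk2 {a} {b} _ _⟩ : Σ i, Mono (m + 1) (d i)) = ⟨(E r).1, s⟩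
    congr 1
    funext t
    fin_cases t
    · exact Subtype.ext ha.symm
    · exact Subtype.ext hb.symm

/-- The factors. -/
def mu2 : Ix m → ℚ
  | .inl _ => 1
  | .inr _ => 2

theorem ideal2 {K : Type} [Field K] [NumberField K] (c : Ix m → K)
    [DecidableEq (Σ i, Mono (m + 1) (d i))] :
    ideal d (fun s => ∑ e with sg2 h0 h1 h01 E e = s, algebraMap ℚ K (mu2 e) * c e) =
      (Helper47.H2.chartIdeal c).map (rename (vv (m + 1)) :
        MvPolynomial (Fin (m + 1) ⊕ Fin (m + 1)) K →ₐ[K] MvPolynomial (Fin 2 × Fin (m + 1)) K) := by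
  have hform := fun i => form_sum (sg2 h0 h1 h01 E) (fun e => algebraMap ℚ K (mu2 e) * c e) i
  have w1 : ∀ r, form (d (E r).1) (fun s => ∑ e with sg2 h0 h1 h01 E e = ⟨(E r).1, s⟩,
      algebraMap ℚ K (mu2 e) * c e) = rename (vv (m + 1)) (bf (fun e => C (c e)) r
        (aff fun i => (X (.inl i) : MvPolynomial (Fin (m + 1) ⊕ Fin (m + 1)) K))
        (aff fun i => X (.inr i))) := by
    intro r
    rw [hform, Finset.sum_filter, Fintype.sum_sum_type, Fintype.sum_sum_type]
    have e1 : ∀ q : Fin (m + 2) × Fin (m + 2) × Fin (m + 2),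
        (if (sg2 h0 h1 h01 E (.inr (.inl q))).1 = (E r).1 then
          C (algebraMap ℚ K (mu2 (.inr (.inl q))) * c (.inr (.inl q))) *
            mono K (sg2 h0 h1 h01 E (.inr (.inl q))).2 else 0) =
        (0 : MvPolynomial (Fin 2 × Fin (m + 1)) K) := by
      rintro ⟨i, j, k⟩
      rw [if_neg]
      exact (E r).2.1.symm
    have e2 : ∀ q : Fin (m + 2) × Fin (m + 2) × Fin (m + 2),
        (if (sg2 h0 h1 h01 E (.inr (.inr q))).1 = (E r).1 then
          C (algebraMap ℚ K (mu2 (.inr (.inr q))) * c (.inr (.inr q))) *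
            mono K (sg2 h0 h1 h01 E (.inr (.inr q))).2 else 0) =
        (0 : MvPolynomial (Fin 2 × Fin (m + 1)) K) := by
      rintro ⟨i, j, k⟩
      rw [if_neg]
      exact (E r).2.2.symm
    rw [Finset.sum_eq_zero (fun q _ => e1 q), Finset.sum_eq_zero (fun q _ => e2 q), add_zero,
      add_zero, Fintype.sum_prod_type]
    rw [Finset.sum_eq_single r]
    · simp only [bf, map_sum, map_mul, rename_C]
      rw [Fintype.sum_prod_type]
      refine Finset.sum_congr rfl fun i _ => Finset.sum_congr rfl fun j _ => ?_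
      have e5 : (sg2 h0 h1 h01 E (.inl (r, i, j))).1 = (E r).1 := rfl
      rw [if_pos e5, rename_aff_inl, rename_aff_inr]
      simp only [sg2, mu2, mono_mk2, map_one, one_mul, Multiset.map_singleton,
        Multiset.prod_singleton]
      rw [mul_assoc]
    · intro r' _ hr'
      apply Finset.sum_eq_zero
      rintro ⟨i, j⟩ _
      rw [if_neg]
      intro h2
      exact hr' (E.injective (Subtype.ext h2))
    · intro h2
      exact absurd (Finset.mem_univ _) h2
  have g3 : (algebraMap ℚ K) 2 = 2 := map_ofNat _ 2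
  have g4 : (rename (vv (m + 1)) (2 : MvPolynomial (Fin (m + 1) ⊕ Fin (m + 1)) K)) = 2 :=
    map_ofNat _ 2
  have g5 : (C (2 : K) : MvPolynomial (Fin 2 × Fin (m + 1)) K) = 2 := map_ofNat _ 2
  have w2 : form (d i0) (fun s => ∑ e with sg2 h0 h1 h01 E e = ⟨i0, s⟩,
      algebraMap ℚ K (mu2 e) * c e) = rename (vv (m + 1)) (sf (fun e => C (c e))
        (aff fun i => (X (.inl i) : MvPolynomial (Fin (m + 1) ⊕ Fin (m + 1)) K))
        (aff fun i => X (.inl i)) (aff fun i => X (.inr i))) := by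
    rw [hform, Finset.sum_filter, Fintype.sum_sum_type, Fintype.sum_sum_type]
    have e1 : ∀ q : Bi m × Fin (m + 2) × Fin (m + 2),
        (if (sg2 h0 h1 h01 E (.inl q)).1 = i0 then
          C (algebraMap ℚ K (mu2 (.inl q)) * c (.inl q)) *
            mono K (sg2 h0 h1 h01 E (.inl q)).2 else 0) =
        (0 : MvPolynomial (Fin 2 × Fin (m + 1)) K) := by
      rintro ⟨r, i, j⟩
      rw [if_neg]
      exact (E r).2.1
    have e2 : ∀ q : Fin (m + 2) × Fin (m + 2) × Fin (m + 2),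
        (if (sg2 h0 h1 h01 E (.inr (.inr q))).1 = i0 then
          C (algebraMap ℚ K (mu2 (.inr (.inr q))) * c (.inr (.inr q))) *
            mono K (sg2 h0 h1 h01 E (.inr (.inr q))).2 else 0) =
        (0 : MvPolynomial (Fin 2 × Fin (m + 1)) K) := by
      rintro ⟨i, j, k⟩
      rw [if_neg]
      exact h01.symm
    rw [Finset.sum_eq_zero (fun q _ => e1 q), Finset.sum_eq_zero (fun q _ => e2 q), zero_add,
      add_zero, sf_sum, map_sum]
    refine Finset.sum_congr rfl fun e _ => ?_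
    obtain ⟨i, j, k⟩ := e
    have e5 : (sg2 h0 h1 h01 E (.inr (.inl (i, j, k)))).1 = i0 := rfl
    rw [if_pos e5]
    simp only [map_mul, rename_C, rename_aff_inl, rename_aff_inr]
    simp only [sg2, mu2, mono_mk2]
    rw [g3, g4, g5]
    simp only [Multiset.insert_eq_cons, Multiset.map_cons, Multiset.map_singleton,
      Multiset.prod_cons, Multiset.prod_singleton]
    rw [mul_assoc (2 * C (c (Sum.inr (Sum.inl (i, j, k)))))]
  have w3 : form (d i1) (fun s => ∑ e with sg2 h0 h1 h01 E e = ⟨i1, s⟩,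
      algebraMap ℚ K (mu2 e) * c e) = rename (vv (m + 1)) (tf (fun e => C (c e))
        (aff fun i => (X (.inl i) : MvPolynomial (Fin (m + 1) ⊕ Fin (m + 1)) K))
        (aff fun i => X (.inr i)) (aff fun i => X (.inr i))) := by
    rw [hform, Finset.sum_filter, Fintype.sum_sum_type, Fintype.sum_sum_type]
    have e1 : ∀ q : Bi m × Fin (m + 2) × Fin (m + 2),
        (if (sg2 h0 h1 h01 E (.inl q)).1 = i1 then
          C (algebraMap ℚ K (mu2 (.inl q)) * c (.inl q)) *
            mono K (sg2 h0 h1 h01 E (.inl q)).2 else 0) =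
        (0 : MvPolynomial (Fin 2 × Fin (m + 1)) K) := by
      rintro ⟨r, i, j⟩
      rw [if_neg]
      exact (E r).2.2
    have e2 : ∀ q : Fin (m + 2) × Fin (m + 2) × Fin (m + 2),
        (if (sg2 h0 h1 h01 E (.inr (.inl q))).1 = i1 then
          C (algebraMap ℚ K (mu2 (.inr (.inl q))) * c (.inr (.inl q))) *
            mono K (sg2 h0 h1 h01 E (.inr (.inl q))).2 else 0) =
        (0 : MvPolynomial (Fin 2 × Fin (m + 1)) K) := by
      rintro ⟨i, j, k⟩
      rw [if_neg]
      exact h01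
    rw [Finset.sum_eq_zero (fun q _ => e1 q), Finset.sum_eq_zero (fun q _ => e2 q), zero_add,
      zero_add, tf_sum, map_sum]
    refine Finset.sum_congr rfl fun e _ => ?_
    obtain ⟨i, j, k⟩ := e
    have e5 : (sg2 h0 h1 h01 E (.inr (.inr (i, j, k)))).1 = i1 := rfl
    rw [if_pos e5]
    simp only [map_mul, rename_C, rename_aff_inl, rename_aff_inr]
    simp only [sg2, mu2, mono_mk2]
    rw [g3, g4, g5]
    simp only [Multiset.insert_eq_cons, Multiset.map_cons, Multiset.map_singleton,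
      Multiset.prod_cons, Multiset.prod_singleton]
    rw [mul_assoc (2 * C (c (Sum.inr (Sum.inr (i, j, k)))))]
  rw [ideal, Helper47.H2.chartIdeal, Ideal.map_span]
  congr 1
  ext f
  constructor
  · rintro ⟨i, rfl⟩
    by_cases hi : i = i0
    · subst hi
      exact ⟨_, Or.inr (Or.inl rfl), w2.symm⟩
    by_cases hi' : i = i1
    · subst hi'
      exact ⟨_, Or.inr (Or.inr rfl), w3.symm⟩
    · obtain ⟨r, hr⟩ := E.surjective ⟨i, hi, hi'⟩
      obtain rfl : (E r).1 = i := by rw [hr]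
      exact ⟨_, Or.inl ⟨r, rfl⟩, (w1 r).symm⟩
  · rintro ⟨g, ⟨r, rfl⟩ | rfl | hg, rfl⟩
    · exact ⟨(E r).1, w1 r⟩
    · exact ⟨i0, w2⟩
    · rw [Set.mem_singleton_iff] at hg
      subst hg
      exact ⟨i1, w3⟩

include h0 h1 h01 in
theorem type2_of
    (hfin : ∃ Δ : MvPolynomial (Ix m) ℚ, Δ ≠ 0 ∧ ∀ (K : Type) [Field K] [NumberField K]
    (c : Ix m → K), aeval c Δ ≠ 0 →
      (Helper47.H2.chartIdeal c).IsPrime ∧
      (∀ Φ : MvPolynomial (Fin (m + 1)) K, rename Sum.inl Φ ∈ Helper47.H2.chartIdeal c ∨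
        rename Sum.inr Φ ∈ Helper47.H2.chartIdeal c → Φ = 0) ∧
      Algebra.trdeg K (MvPolynomial (Fin (m + 1) ⊕ Fin (m + 1)) K ⧸ Helper47.H2.chartIdeal c) =
        (m + 1 : ℕ) ∧
      ∀ (X : Scheme.{0}) (s : X ⟶ Spec (CommRingCat.of K)) [IrreducibleSpace X],
        BirationalOver K X (Spec (CommRingCat.of
          (MvPolynomial (Fin (m + 1) ⊕ Fin (m + 1)) K ⧸ Helper47.H2.chartIdeal c))) s
          (Spec.map (CommRingCat.ofHom (algebraMap K
            (MvPolynomial (Fin (m + 1) ⊕ Fin (m + 1)) K ⧸ Helper47.H2.chartIdeal c)))) →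
        PotentiallyDense K X s) :
    ∃ Δ : MvPolynomial (Σ i, Mono (m + 1) (d i)) ℚ, Δ ≠ 0 ∧
    ∀ (K : Type) [Field K] [NumberField K] (a : (Σ i, Mono (m + 1) (d i)) → K),
      aeval a Δ ≠ 0 → Good K (ideal d a) (m + 1) := by
  classical
  obtain ⟨E⟩ := exists_num h01
  refine transfer (sg2 h0 h1 h01 E) (sg2_surjective h0 h1 h01 E) mu2
    (fun e => by rcases e with e | e <;> norm_num [mu2])
    (fun K _ _ a => Good K (ideal d a) (m + 1)) ?_
  obtain ⟨Δ, hΔ, H⟩ := hfin
  refine ⟨Δ, hΔ, fun K _ _ c hc => ?_⟩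
  obtain ⟨g1, g2, g3, g4⟩ := H K c hc
  exact good_of (vv (m + 1)) (ideal2 h0 h1 h01 E c) g1 (fun r Φ hΦ hv => dom_of g2 r Φ hΦ hv) g3 g4

end type2

end Pool.Agent.Helper92.CI
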